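import Pool.Agent.helper40.SU.SpecA

/-!
# su:FMC (MP_c66272_nt): many squarefree values in the box
-/

set_option autoImplicit false

open Finset

namespace Pool.Agent.SU

lemma FMC_root (K : ℕ) (_hK : 1 ≤ K) : ∃ y : ℕ, y ^ 20 ≤ K ∧ K < (y + 1) ^ 20 := by
  classical
  have hex : ∃ y : ℕ, K < (y + 1) ^ 20 := by
    refine ⟨K, ?_⟩
    have h1 : K + 1 ≤ (K + 1) ^ 20 := Nat.le_self_pow (by norm_num) _
    omega
  refine ⟨Nat.find hex, ?_, Nat.find_spec hex⟩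
  rcases Nat.eq_zero_or_pos (Nat.find hex) with h | h
  · rw [h]
    simp
  · have h1 := Nat.find_min hex (m := Nat.find hex - 1) (by omega)
    rw [not_lt, Nat.sub_add_cancel h] at h1
    exact h1

lemma FMC_num {K Z q P N M G : ℝ} (hK : 1 ≤ K) (hZ : 1000 ≤ Z) (_hq0 : 0 ≤ q)
    (hq : 102400 * q ≤ K) (h1 : K ^ 2 - P ≤ 8 * K ^ 2 / Z + 1024 * q * K)
    (h2 : N ≤ (8 / Z + 1 / 100) * K ^ 2) (h3 : M ≤ K ^ 2 / 4) (h4 : P ≤ G + (N + M)) :
    K ^ 2 / 4 ≤ G := by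
  have hZ0 : 0 < Z := by linarith
  have hK2 : 0 < K ^ 2 := by positivity
  have e1 : 8 / Z ≤ 1 / 100 := by
    rw [div_le_div_iff₀ hZ0 (by norm_num)]
    linarith
  have e2 : 8 * K ^ 2 / Z ≤ 1 / 100 * K ^ 2 := by
    rw [mul_div_right_comm]
    exact mul_le_mul_of_nonneg_right e1 hK2.le
  have e3 : (8 / Z + 1 / 100) * K ^ 2 ≤ (1 / 100 + 1 / 100) * K ^ 2 :=
    mul_le_mul_of_nonneg_right (by linarith) hK2.le
  have e4 : 1024 * q * K ≤ K ^ 2 / 100 := by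
    have : 1024 * q * K ≤ (K / 100) * K := mul_le_mul_of_nonneg_right (by linarith) (by linarith)
    calc 1024 * q * K ≤ (K / 100) * K := this
      _ = K ^ 2 / 100 := by ring
  linarith

theorem FMC (hDCO : DCO_stmt) (hNPR : NPR_stmt) (hSQF : SQF_stmt) (hSMO : SMO_stmt) (hMLT : MLT_stmt) : FMC_stmt := by
  classical
  refine ⟨1000, fun Z hZ m q u₀ k₀ hdat => ?_⟩
  have hZ7 : 7 ≤ Z := by omega
  obtain ⟨K₁, hK₁⟩ := hSQF Z m q u₀ k₀ hZ7 hdat (1 / 100) (by norm_num)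
  obtain ⟨K₂, hK₂⟩ := hSMO Z m q u₀ k₀ hZ7 hdat
  obtain ⟨K₃, hK₃⟩ := hMLT Z m q u₀ k₀ hZ7 hdat
  refine ⟨K₁ + K₂ + K₃ + 102400 * q + 1, fun K hK => ?_⟩
  have hK1 : 1 ≤ K := by omega
  obtain ⟨y, hy1, hy2⟩ := FMC_root K hK1
  obtain ⟨hcard, -⟩ := hDCO Z m q u₀ k₀ K hdat hK1
  have hN := hNPR Z m q u₀ k₀ hZ7 hdat K hK1
  have hS := hK₁ K (by omega)
  have hM := hK₂ K (by omega) y hy1
  have hML := hK₃ K (by omega) y hy1 hy2
  set Good := (Px q u₀ k₀ K).filter (fun x => Squarefree (Df m x.1 x.2) ∧ smp y (Df m x.1 x.2) ≤ K)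
    with hGood
  have hsub : Px q u₀ k₀ K ⊆ Good ∪ ((Px q u₀ k₀ K).filter (fun x => ¬ Squarefree (Df m x.1 x.2)) ∪
      (Px q u₀ k₀ K).filter (fun x => K < smp y (Df m x.1 x.2))) := by
    intro x hx
    by_cases h1 : Squarefree (Df m x.1 x.2)
    · by_cases h2 : K < smp y (Df m x.1 x.2)
      · exact mem_union_right _ (mem_union_right _ (mem_filter.mpr ⟨hx, h2⟩))
      · exact mem_union_left _ (mem_filter.mpr ⟨hx, h1, not_lt.mp h2⟩)
    · exact mem_union_right _ (mem_union_left _ (mem_filter.mpr ⟨hx, h1⟩))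
  have hle : (Px q u₀ k₀ K).card ≤ Good.card +
      (((Px q u₀ k₀ K).filter (fun x => ¬ Squarefree (Df m x.1 x.2))).card +
      ((Px q u₀ k₀ K).filter (fun x => K < smp y (Df m x.1 x.2))).card) := by
    refine (card_le_card hsub).trans ((card_union_le _ _).trans ?_)
    exact Nat.add_le_add_left (card_union_le _ _) _
  have hleR : ((Px q u₀ k₀ K).card : ℝ) ≤ Good.card +
      ((((Px q u₀ k₀ K).filter (fun x => ¬ Squarefree (Df m x.1 x.2))).card : ℝ) +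
      (((Px q u₀ k₀ K).filter (fun x => K < smp y (Df m x.1 x.2))).card : ℝ)) := by
    exact_mod_cast hle
  have hmul : Good.card ≤ 4 ^ 90 * (Good.image (fun x => Df m x.1 x.2)).card := by
    apply card_le_mul_card_image
    intro D hD
    obtain ⟨x, hx, hxD⟩ := mem_image.mp hD
    obtain ⟨hx1, hx2, hx3⟩ := mem_filter.mp hx
    rw [hxD] at hx2 hx3
    refine le_trans (card_le_card ?_) (hML D hx2 hx3)
    intro z hz
    obtain ⟨hz1, hz2⟩ := mem_filter.mp hz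
    exact mem_filter.mpr ⟨(mem_filter.mp hz1).1, hz2⟩
  refine ⟨Good.image (fun x => Df m x.1 x.2), ?_, ?_⟩
  · apply image_subset_image
    intro x hx
    obtain ⟨hx1, hx2, hx3⟩ := mem_filter.mp hx
    exact mem_filter.mpr ⟨hx1, hx2⟩
  · have hmulR : (Good.card : ℝ) ≤ 4 ^ 90 * ((Good.image (fun x => Df m x.1 x.2)).card : ℝ) := by
      exact_mod_cast hmul
    have hB : ((Bx q u₀ k₀ K).card : ℝ) = (K : ℝ) ^ 2 := by
      rw [hcard]
      push_cast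
      ring
    rw [hB] at hN
    have hK0 : (1 : ℝ) ≤ K := by exact_mod_cast hK1
    have hZr : (1000 : ℝ) ≤ Z := by exact_mod_cast hZ
    have hq : (102400 : ℝ) * q ≤ K := by
      have : 102400 * q ≤ K := by omega
      exact_mod_cast this
    have h5 : (K : ℝ) ^ 2 / 4 ≤ Good.card :=
      FMC_num hK0 hZr (Nat.cast_nonneg q) hq hN hS hM hleR
    have h6 : (1 / 4 ^ 91 : ℝ) * (K : ℝ) ^ 2 = ((K : ℝ) ^ 2 / 4) / 4 ^ 90 := by ring
    rw [h6, div_le_iff₀ (by positivity)]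
    linarith

end Pool.Agent.SU
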