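import Pool.Agent.helper40.SU.SpecB

/-!
# su:PWL (MP_c66272_nt): the large `g`, sum over the dyadic blocks
-/

set_option autoImplicit false

open Finset

namespace Pool.Agent.SU

lemma PWL_ev : ∃ K₁ : ℕ, ∀ K ≥ K₁, 2 * ((Nat.log 2 (K ^ 41) : ℝ) + 1) ≤ (K : ℝ) ^ (1 / 200 : ℝ) := by
  have h1 : ∀ᶠ x : ℝ in Filter.atTop, ‖Real.log x‖ ≤ (1 / 480) * ‖x ^ (1 / 200 : ℝ)‖ :=
    (isLittleO_log_rpow_atTop (by norm_num : (0 : ℝ) < 1 / 200)).bound (by norm_num)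
  have h2 : ∀ᶠ x : ℝ in Filter.atTop, (8 : ℝ) ≤ x ^ (1 / 200 : ℝ) :=
    (tendsto_rpow_atTop (by norm_num : (0 : ℝ) < 1 / 200)).eventually_ge_atTop 8
  have h3 := tendsto_natCast_atTop_atTop.eventually (h1.and (h2.and (Filter.eventually_ge_atTop (1 : ℝ))))
  obtain ⟨K₁, hK₁⟩ := Filter.eventually_atTop.mp h3
  refine ⟨K₁, fun K hK => ?_⟩
  obtain ⟨k1, k2, k3⟩ := hK₁ K hK
  have hlog : 0 ≤ Real.log (K : ℝ) := Real.log_nonneg k3
  rw [Real.norm_of_nonneg hlog, Real.norm_of_nonneg (by positivity)] at k1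
  have k4 : (Nat.log 2 (K ^ 41) : ℝ) ≤ 60 * Real.log K := by
    have h5 : (Nat.log 2 (K ^ 41) : ℝ) ≤ Real.logb (2 : ℕ) ((K ^ 41 : ℕ) : ℝ) :=
      Real.natLog_le_logb _ _
    refine h5.trans ?_
    rw [Real.logb]
    push_cast
    rw [Real.log_pow, div_le_iff₀ (Real.log_pos (by norm_num))]
    have := Real.log_two_gt_d9
    push_cast
    nlinarith
  linarith

lemma PWL_wj_nonneg (j : ℕ) : 0 ≤ wj j := by
  unfold wj
  positivity

lemma PWL_wj_one : wj 1 = 1 := by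
  unfold wj om
  simp

lemma PWL_sum_wj {Z q : ℕ} (hZ : 1 ≤ Z)
    (hW : ∀ N : ℕ, ∑ j ∈ (cop q N).filter (fun j => j ≠ 1),
      wj j * 5 ^ (om j) * (j : ℝ) ^ (1 / 10 : ℝ) ≤ (Z : ℝ) ^ (-(1 / 4) : ℝ)) (N : ℕ) :
    ∑ j ∈ cop q N, wj j ≤ 2 := by
  classical
  have h1 : (Z : ℝ) ^ (-(1 / 4) : ℝ) ≤ 1 := by
    apply Real.rpow_le_one_of_one_le_of_nonpos
    · exact_mod_cast hZ
    · norm_num
  rw [← Finset.sum_filter_add_sum_filter_not (cop q N) (fun j => j ≠ 1)]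
  have h2 : ∑ j ∈ (cop q N).filter (fun j => j ≠ 1), wj j ≤ 1 := by
    refine le_trans ?_ ((hW N).trans h1)
    apply Finset.sum_le_sum
    intro j hj
    have hj1 : 1 ≤ j := (mem_Icc.mp (mem_filter.mp (mem_filter.mp hj).1).1).1
    have e1 : (1 : ℝ) ≤ 5 ^ (om j) := one_le_pow₀ (by norm_num)
    have e2 : (1 : ℝ) ≤ (j : ℝ) ^ (1 / 10 : ℝ) :=
      Real.one_le_rpow (by exact_mod_cast hj1) (by norm_num)
    have e3 := PWL_wj_nonneg j
    calc wj j = wj j * 1 * 1 := by ring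
      _ ≤ wj j * 5 ^ (om j) * (j : ℝ) ^ (1 / 10 : ℝ) := by gcongr
  have h3 : ∑ j ∈ (cop q N).filter (fun j => ¬ j ≠ 1), wj j ≤ 1 := by
    have h4 : (cop q N).filter (fun j => ¬ j ≠ 1) ⊆ {1} := by
      intro j hj
      rw [mem_singleton]
      exact not_not.mp (mem_filter.mp hj).2
    calc ∑ j ∈ (cop q N).filter (fun j => ¬ j ≠ 1), wj j ≤ ∑ j ∈ ({1} : Finset ℕ), wj j :=
          Finset.sum_le_sum_of_subset_of_nonneg h4 (fun j _ _ => PWL_wj_nonneg j)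
      _ = 1 := by rw [Finset.sum_singleton, PWL_wj_one]
  linarith

lemma PWL_blocks {q K : ℕ} (hK : 1 ≤ K) (f : ℕ → ℝ) {M : ℝ} (hf : ∀ g, 0 ≤ f g) (hM : 0 ≤ M)
    (hb : ∀ G : ℕ, K ≤ (2 * G) ^ 4 → G ≤ K ^ 41 → 1 ≤ G →
      (1 / (G : ℝ)) * ∑ g ∈ (Ioc G (2 * G)).filter (fun g => g.Coprime (2 * q)), f g ≤ M) :
    ∑ g ∈ (cop q (K ^ 41)).filter (fun g => K < g ^ 4), 1 / (g : ℝ) * f g ≤
      ((Nat.log 2 (K ^ 41) : ℝ) + 1) * M := by
  classical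
  set T := (cop q (K ^ 41)).filter (fun g => K < g ^ 4) with hT
  have key : ∀ g ∈ T, Nat.log 2 (g - 1) ∈ range (Nat.log 2 (K ^ 41) + 1) ∧
      2 ^ (Nat.log 2 (g - 1)) < g ∧ g ≤ 2 * 2 ^ (Nat.log 2 (g - 1)) ∧ g.Coprime (2 * q) ∧
      K < g ^ 4 ∧ g ≤ K ^ 41 := by
    intro g hg
    obtain ⟨hg1, hg2⟩ := mem_filter.mp hg
    obtain ⟨hg3, hg4⟩ := mem_filter.mp hg1
    obtain ⟨hg5, hg6⟩ := mem_Icc.mp hg3
    have hg7 : 2 ≤ g := by
      by_contra hcon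
      have : g = 1 := by omega
      subst this
      simp at hg2
      omega
    have h1 : 2 ^ (Nat.log 2 (g - 1)) ≤ g - 1 := Nat.pow_log_le_self 2 (by omega)
    have h2 : g - 1 < 2 ^ (Nat.log 2 (g - 1) + 1) := Nat.lt_pow_succ_log_self (by norm_num) _
    have h3 : Nat.log 2 (g - 1) ≤ Nat.log 2 (K ^ 41) := Nat.log_mono_right (by omega)
    refine ⟨mem_range.mpr (by omega), by omega, ?_, hg4, hg2, hg6⟩
    rw [pow_succ] at h2
    omega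
  have h1 : ∑ g ∈ T, 1 / (g : ℝ) * f g =
      ∑ i ∈ range (Nat.log 2 (K ^ 41) + 1), ∑ g ∈ T.filter (fun g => Nat.log 2 (g - 1) = i),
        1 / (g : ℝ) * f g := by
    rw [Finset.sum_fiberwise_of_maps_to]
    intro g hg
    exact (key g hg).1
  rw [h1]
  have h2 : ∀ i ∈ range (Nat.log 2 (K ^ 41) + 1),
      ∑ g ∈ T.filter (fun g => Nat.log 2 (g - 1) = i), 1 / (g : ℝ) * f g ≤ M := by
    intro i _
    rcases (T.filter (fun g => Nat.log 2 (g - 1) = i)).eq_empty_or_nonempty with hemp | ⟨g₀, hg₀⟩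
    · rw [hemp, Finset.sum_empty]
      exact hM
    · obtain ⟨hg₁, hg₂⟩ := mem_filter.mp hg₀
      obtain ⟨-, k1, k2, -, k4, k5⟩ := key g₀ hg₁
      rw [hg₂] at k1 k2
      have hG1 : 1 ≤ 2 ^ i := Nat.one_le_two_pow
      refine le_trans ?_ (hb (2 ^ i) ?_ ?_ hG1)
      · rw [Finset.mul_sum]
        calc ∑ g ∈ T.filter (fun g => Nat.log 2 (g - 1) = i), 1 / (g : ℝ) * f g
            ≤ ∑ g ∈ T.filter (fun g => Nat.log 2 (g - 1) = i), 1 / ((2 ^ i : ℕ) : ℝ) * f g := by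
              apply Finset.sum_le_sum
              intro g hg
              obtain ⟨hg3, hg4⟩ := mem_filter.mp hg
              obtain ⟨-, k6, -⟩ := key g hg3
              rw [hg4] at k6
              apply mul_le_mul_of_nonneg_right _ (hf g)
              apply one_div_le_one_div_of_le
              · exact_mod_cast hG1
              · exact_mod_cast k6.le
          _ ≤ ∑ g ∈ (Ioc (2 ^ i) (2 * 2 ^ i)).filter (fun g => g.Coprime (2 * q)),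
                1 / ((2 ^ i : ℕ) : ℝ) * f g := by
              apply Finset.sum_le_sum_of_subset_of_nonneg
              · intro g hg
                obtain ⟨hg3, hg4⟩ := mem_filter.mp hg
                obtain ⟨-, k6, k7, k8, -⟩ := key g hg3
                rw [hg4] at k6 k7
                exact mem_filter.mpr ⟨mem_Ioc.mpr ⟨k6, k7⟩, k8⟩
              · intro g _ _
                exact mul_nonneg (by positivity) (hf g)
      · exact k4.le.trans (Nat.pow_le_pow_left k2 4)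
      · omega
  calc ∑ i ∈ range (Nat.log 2 (K ^ 41) + 1), ∑ g ∈ T.filter (fun g => Nat.log 2 (g - 1) = i),
        1 / (g : ℝ) * f g ≤ ∑ _i ∈ range (Nat.log 2 (K ^ 41) + 1), M := Finset.sum_le_sum h2
    _ = ((Nat.log 2 (K ^ 41) : ℝ) + 1) * M := by
      rw [Finset.sum_const, card_range, nsmul_eq_mul]
      push_cast
      ring

theorem PWL (hPWJ : PWJ_stmt) (hWSM : WSM_stmt) : PWL_stmt := by
  classical
  obtain ⟨Z₁, hZ₁⟩ := hPWJ
  obtain ⟨Z₂, hZ₂⟩ := hWSM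
  refine ⟨Z₁ + Z₂ + 1, fun Z hZ q D₀ Γ hSm hD hDq hΓ => ?_⟩
  obtain ⟨K₂, hK₂⟩ := hZ₁ Z (by omega) q D₀ Γ hSm hD hDq hΓ
  obtain ⟨K₁, hK₁⟩ := PWL_ev
  refine ⟨K₁ + K₂ + 1, fun K hK c₀ C₀ S hF => ?_⟩
  have hK1 : 1 ≤ K := by omega
  have hK0 : (0 : ℝ) < K := by exact_mod_cast hK1
  have hW := PWL_sum_wj (by omega) (hZ₂ Z (by omega) q hSm) K
  have hMn : 0 ≤ (K : ℝ) ^ (-(3 / 200) : ℝ) := by positivity
  have hin : ∀ j ∈ (cop q K).filter (fun j => j ^ 100 ≤ K),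
      wj j * ∑ g ∈ (cop q (K ^ 41)).filter (fun g => K < g ^ 4), 1 / (g : ℝ) * Bj S j g ^ 2 ≤
      wj j * (((Nat.log 2 (K ^ 41) : ℝ) + 1) * (K : ℝ) ^ (-(3 / 200) : ℝ)) := by
    intro j hj
    obtain ⟨hj1, hj2⟩ := mem_filter.mp hj
    obtain ⟨hj3, hj4⟩ := mem_filter.mp hj1
    apply mul_le_mul_of_nonneg_left _ (PWL_wj_nonneg j)
    apply PWL_blocks hK1 (fun g => Bj S j g ^ 2) (fun g => sq_nonneg _) hMn
    intro G hG1 hG2 _
    exact hK₂ K (by omega) c₀ C₀ S hF j G (mem_Icc.mp hj3).1 hj2 hj4 hG1 hG2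
  refine (Finset.sum_le_sum hin).trans ?_
  rw [← Finset.sum_mul]
  have hsub : ∑ j ∈ (cop q K).filter (fun j => j ^ 100 ≤ K), wj j ≤ 2 :=
    (Finset.sum_le_sum_of_subset_of_nonneg (filter_subset _ _)
      (fun j _ _ => PWL_wj_nonneg j)).trans hW
  have hev := hK₁ K (by omega)
  have hLn : 0 ≤ ((Nat.log 2 (K ^ 41) : ℝ) + 1) * (K : ℝ) ^ (-(3 / 200) : ℝ) := by positivity
  calc (∑ j ∈ (cop q K).filter (fun j => j ^ 100 ≤ K), wj j) *
        (((Nat.log 2 (K ^ 41) : ℝ) + 1) * (K : ℝ) ^ (-(3 / 200) : ℝ))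
      ≤ 2 * (((Nat.log 2 (K ^ 41) : ℝ) + 1) * (K : ℝ) ^ (-(3 / 200) : ℝ)) :=
        mul_le_mul_of_nonneg_right hsub hLn
    _ = (2 * ((Nat.log 2 (K ^ 41) : ℝ) + 1)) * (K : ℝ) ^ (-(3 / 200) : ℝ) := by ring
    _ ≤ (K : ℝ) ^ (1 / 200 : ℝ) * (K : ℝ) ^ (-(3 / 200) : ℝ) :=
        mul_le_mul_of_nonneg_right hev hMn
    _ = (K : ℝ) ^ (-(1 / 100) : ℝ) := by
        rw [← Real.rpow_add hK0]
        norm_num

end Pool.Agent.SU
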